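import Mathlib

/-! A bounded operator that is local with respect to a self-adjoint element commutes with it. -/

set_option autoImplicit false

open NormedSpace MeasureTheory Set

namespace Pool.Agent.P.MP_65e938_an

variable {𝒜 : Type*} [CStarAlgebra 𝒜]

/-- If the commutator of `S` and `C` commutes with the self-adjoint `S`, it vanishes. -/
theorem comm_eq_zero_of_comm_comm {S C : 𝒜} (hS : IsSelfAdjoint S)
    (h : Commute S (S * C - C * S)) : S * C - C * S = 0 := by
  let _ : NormedAlgebra ℚ 𝒜 := .restrictScalars ℚ ℂ 𝒜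
  set a : 𝒜 := (Complex.I : ℂ) • S with ha
  set E : 𝒜 := (Complex.I : ℂ) • (S * C - C * S) with hE
  have haE : Commute a E := (h.smul_left _).smul_right _
  have hU : ∀ t : ℝ, exp (t • a) ∈ unitary 𝒜 := by
    intro t
    have := (selfAdjoint.expUnitary (t • (⟨S, hS⟩ : selfAdjoint 𝒜))).2
    convert this using 2
    simp [selfAdjoint.expUnitary, ha, smul_comm t Complex.I S]
  have hinv : ∀ t : ℝ, exp (t • a) * exp (t • (-a)) = 1 := by
    intro t
    rw [← exp_add_of_commute ((Commute.refl a).neg_right.smul_left t |>.smul_right t)]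
    simp
  have hU' : ∀ t : ℝ, exp (t • (-a)) ∈ unitary 𝒜 := by
    intro t
    have := hU (-t)
    rwa [neg_smul, ← smul_neg] at this
  let F : ℝ → 𝒜 := fun t => exp (t • a) * C * exp (t • (-a))
  have hF : ∀ t : ℝ, HasDerivAt F E t := by
    intro t
    have h1 := ((hasDerivAt_exp_smul_const a t).mul_const C).mul
      (hasDerivAt_exp_smul_const' (-a) t)
    have h2 : exp (t • a) * E * exp (t • (-a)) = E := by
      have : Commute (exp (t • a)) E := (haE.smul_left t).exp_left
      rw [this.eq, mul_assoc, hinv, mul_one]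
    have h3 : E = a * C - C * a := by
      simp [hE, ha, smul_sub]
    have h4 : exp (t • a) * a * C * exp (t • -a) + exp (t • a) * C * (-a * exp (t • -a)) = E := by
      rw [← h2, h3]
      noncomm_ring
    rw [h4] at h1
    exact h1
  have hG : ∀ t : ℝ, HasDerivAt (fun s : ℝ => F s - s • E) 0 t := by
    intro t
    have := (hF t).sub ((hasDerivAt_id t).smul_const E)
    rw [one_smul, sub_self] at this
    exact this
  have hconst : ∀ t : ℝ, F t - t • E = C := by
    intro t
    have := is_const_of_deriv_eq_zero (f := fun s : ℝ => F s - s • E)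
      (fun s => (hG s).differentiableAt) (fun s => (hG s).deriv) t 0
    simpa [F] using this
  have hnorm : ∀ t : ℝ, ‖F t‖ = ‖C‖ := by
    intro t
    simp only [F]
    rw [CStarRing.norm_mul_mem_unitary _ (hU' t), CStarRing.norm_mem_unitary_mul _ (hU t)]
  have hE0 : E = 0 := by
    by_contra hne
    have hpos : 0 < ‖E‖ := norm_pos_iff.mpr hne
    have h1 := hconst ((2 * ‖C‖ + 1) / ‖E‖)
    have h2 : ((2 * ‖C‖ + 1) / ‖E‖) • E = F ((2 * ‖C‖ + 1) / ‖E‖) - C := by
      rw [eq_sub_iff_add_eq, add_comm, ← eq_sub_iff_add_eq]; exact h1.symm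
    have h3 := congrArg norm h2
    rw [norm_smul, Real.norm_of_nonneg (by positivity), div_mul_cancel₀ _ hpos.ne'] at h3
    have h4 := norm_sub_le (F ((2 * ‖C‖ + 1) / ‖E‖)) C
    rw [hnorm] at h4
    linarith
  rw [hE] at hE0
  exact (smul_eq_zero.mp hE0).resolve_left Complex.I_ne_zero

theorem int0 {R x : ℝ} (h1 : -R ≤ x) (h2 : x ≤ R) :
    ∫ t in Ioc (-R) R, max (x - t) 0 = (x + R) ^ 2 / 2 := by
  have hR : -R ≤ R := h1.trans h2
  have hc : Continuous fun t : ℝ => max (x - t) 0 := by fun_prop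
  rw [← intervalIntegral.integral_of_le hR,
    ← intervalIntegral.integral_add_adjacent_intervals (b := x) (hc.intervalIntegrable _ _)
      (hc.intervalIntegrable _ _)]
  have e1 : ∫ t in (-R)..x, max (x - t) 0 = ∫ t in (-R)..x, (x - t) := by
    apply intervalIntegral.integral_congr
    intro t ht
    rw [uIcc_of_le h1] at ht
    exact max_eq_left (by linarith [ht.2])
  have e2 : ∫ t in x..R, max (x - t) 0 = ∫ t in x..R, (0 : ℝ) := by
    apply intervalIntegral.integral_congr
    intro t ht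
    rw [uIcc_of_le h2] at ht
    exact max_eq_right (by linarith [ht.1])
  rw [e1, e2, intervalIntegral.integral_sub (by simp) (by simp)]
  simp
  ring

theorem int1 {R x : ℝ} (h1 : -R ≤ x) (h2 : x ≤ R) :
    ∫ t in Ioc (-R) R, t * max (x - t) 0 = x ^ 3 / 6 - x * R ^ 2 / 2 - R ^ 3 / 3 := by
  have hR : -R ≤ R := h1.trans h2
  have hc : Continuous fun t : ℝ => t * max (x - t) 0 := by fun_prop
  rw [← intervalIntegral.integral_of_le hR,
    ← intervalIntegral.integral_add_adjacent_intervals (b := x) (hc.intervalIntegrable _ _)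
      (hc.intervalIntegrable _ _)]
  have e1 : ∫ t in (-R)..x, t * max (x - t) 0 = ∫ t in (-R)..x, (x * t - t ^ 2) := by
    apply intervalIntegral.integral_congr
    intro t ht
    rw [uIcc_of_le h1] at ht
    simp only
    rw [max_eq_left (by linarith [ht.2])]
    ring
  have e2 : ∫ t in x..R, t * max (x - t) 0 = ∫ t in x..R, (0 : ℝ) := by
    apply intervalIntegral.integral_congr
    intro t ht
    rw [uIcc_of_le h2] at ht
    simp only
    rw [max_eq_right (by linarith [ht.1])]
    ring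
  rw [e1, e2, intervalIntegral.integral_sub
    ((by fun_prop : Continuous fun t : ℝ => x * t).intervalIntegrable _ _)
    ((by fun_prop : Continuous fun t : ℝ => t ^ 2).intervalIntegrable _ _),
    intervalIntegral.integral_const_mul]
  simp
  ring

/-- A local operator commutes with `S`. -/
theorem commute_of_local {S T : 𝒜} (hS : IsSelfAdjoint S)
    (h : ∀ f g : ℝ → ℝ, Continuous f → Continuous g → (∀ x, f x * g x = 0) →
      cfc f S * T * cfc g S = 0) : Commute S T := by
  set R : ℝ := ‖S‖ with hR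
  have hspec : ∀ x ∈ spectrum ℝ S, -R ≤ x ∧ x ≤ R := by
    intro x hx
    have : ‖x‖ ≤ ‖S‖ := by
      rcases subsingleton_or_nontrivial 𝒜 with hs | hs
      · simp [spectrum.of_subsingleton] at hx
      · exact spectrum.norm_le_norm_of_mem hx
    exact abs_le.mp this
  let p : ℝ → 𝒜 := fun t => cfc (fun x : ℝ => max (x - t) 0) S
  have hp : ∀ t : ℝ, p t * T * (S - algebraMap ℝ 𝒜 t) = (S - algebraMap ℝ 𝒜 t) * T * p t := by
    intro t
    let m : 𝒜 := cfc (fun x : ℝ => max (t - x) 0) S
    have hz : ∀ x : ℝ, max (x - t) 0 * max (t - x) 0 = 0 := by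
      intro x
      rcases le_total x t with hx | hx
      · rw [max_eq_right (by linarith : x - t ≤ 0), zero_mul]
      · rw [max_eq_right (by linarith : t - x ≤ 0), mul_zero]
    have h1 : p t * T * m = 0 := h _ _ (by fun_prop) (by fun_prop) hz
    have h2 : m * T * p t = 0 :=
      h _ _ (by fun_prop) (by fun_prop) (fun x => by rw [mul_comm]; exact hz x)
    have h3 : S - algebraMap ℝ 𝒜 t = p t - m := by
      simp only [p, m]
      rw [← cfc_sub _ _ _ (by fun_prop) (by fun_prop)]
      have : (fun x : ℝ => max (x - t) 0 - max (t - x) 0) = fun x => x - t := by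
        funext x
        rcases le_total x t with hx | hx
        · rw [max_eq_right (by linarith : x - t ≤ 0), max_eq_left (by linarith : 0 ≤ t - x)]; ring
        · rw [max_eq_left (by linarith : 0 ≤ x - t), max_eq_right (by linarith : t - x ≤ 0)]; ring
      rw [this, cfc_sub _ _ _ (by fun_prop) (by fun_prop), cfc_id' ℝ S, cfc_const _ _]
    rw [h3, mul_sub, sub_mul, sub_mul, h1, h2]
  have hb0 : ∀ᵐ t ∂(volume.restrict (Ioc (-R) R)), ∀ z ∈ spectrum ℝ S,
      ‖max (z - t) 0‖ ≤ (fun _ : ℝ => 2 * R) t := by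
    filter_upwards [ae_restrict_mem measurableSet_Ioc] with t ht z hz
    have := hspec z hz
    rw [Real.norm_of_nonneg (le_max_right _ _)]
    apply max_le <;> linarith [ht.1, ht.2, this.1, this.2]
  have hb1 : ∀ᵐ t ∂(volume.restrict (Ioc (-R) R)), ∀ z ∈ spectrum ℝ S,
      ‖t * max (z - t) 0‖ ≤ (fun _ : ℝ => R * (2 * R)) t := by
    filter_upwards [ae_restrict_mem measurableSet_Ioc, hb0] with t ht h0 z hz
    rw [norm_mul]
    have : ‖t‖ ≤ R := abs_le.mpr ⟨ht.1.le, ht.2⟩
    exact mul_le_mul this (h0 z hz) (norm_nonneg _) ((norm_nonneg _).trans this)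
  have hc0 : ContinuousOn (Function.uncurry fun t z : ℝ => max (z - t) 0)
      (Ioc (-R) R ×ˢ spectrum ℝ S) := by
    apply Continuous.continuousOn
    unfold Function.uncurry
    fun_prop
  have hc1 : ContinuousOn (Function.uncurry fun t z : ℝ => t * max (z - t) 0)
      (Ioc (-R) R ×ˢ spectrum ℝ S) := by
    apply Continuous.continuousOn
    unfold Function.uncurry
    fun_prop
  have hfin : ∀ c : ℝ, HasFiniteIntegral (fun _ : ℝ => c) (volume.restrict (Ioc (-R) R)) :=
    fun c => (integrable_const c).2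
  have hI0 := cfc_setIntegral (μ := volume) measurableSet_Ioc _ _ S hc0 hb0 (hfin _)
  have hI1 := cfc_setIntegral (μ := volume) measurableSet_Ioc _ _ S hc1 hb1 (hfin _)
  have hi0 := integrableOn_cfc (μ := volume) measurableSet_Ioc _ _ S hc0 hb0 (hfin _)
  have hi1 := integrableOn_cfc (μ := volume) measurableSet_Ioc _ _ S hc1 hb1 (hfin _)
  rw [cfc_congr (g := fun x : ℝ => (1 / 2 : ℝ) * x ^ 2 + R * x + R ^ 2 / 2)
    (fun x hx => by simp only; rw [int0 (hspec x hx).1 (hspec x hx).2]; ring)] at hI0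
  rw [cfc_congr (g := fun x : ℝ => (1 / 6 : ℝ) * x ^ 3 - (R ^ 2 / 2) * x - R ^ 3 / 3)
    (fun x hx => by simp only; rw [int1 (hspec x hx).1 (hspec x hx).2]; ring)] at hI1
  have e0 : cfc (fun x : ℝ => (1 / 2 : ℝ) * x ^ 2 + R * x + R ^ 2 / 2) S
      = (1 / 2 : ℝ) • S ^ 2 + R • S + (R ^ 2 / 2) • (1 : 𝒜) := by
    rw [cfc_add _ _ _ (by fun_prop) (by fun_prop), cfc_add _ _ _ (by fun_prop) (by fun_prop),
      cfc_const_mul _ _ _ (by fun_prop), cfc_const_mul _ _ _ (by fun_prop), cfc_pow_id (R := ℝ) S _,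
      cfc_id' ℝ S, cfc_const _ _, Algebra.algebraMap_eq_smul_one]
  have e1 : cfc (fun x : ℝ => (1 / 6 : ℝ) * x ^ 3 - (R ^ 2 / 2) * x - R ^ 3 / 3) S
      = (1 / 6 : ℝ) • S ^ 3 - (R ^ 2 / 2) • S - (R ^ 3 / 3) • (1 : 𝒜) := by
    rw [cfc_sub _ _ _ (by fun_prop) (by fun_prop), cfc_sub _ _ _ (by fun_prop) (by fun_prop),
      cfc_const_mul _ _ _ (by fun_prop), cfc_const_mul _ _ _ (by fun_prop), cfc_pow_id (R := ℝ) S _,
      cfc_id' ℝ S, cfc_const _ _, Algebra.algebraMap_eq_smul_one]
  rw [e0] at hI0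
  rw [e1] at hI1
  let L0 : 𝒜 →L[ℝ] 𝒜 := (ContinuousLinearMap.mul ℝ 𝒜).flip (T * S) - ContinuousLinearMap.mul ℝ 𝒜 (S * T)
  let L1 : 𝒜 →L[ℝ] 𝒜 := ContinuousLinearMap.mul ℝ 𝒜 T - (ContinuousLinearMap.mul ℝ 𝒜).flip T
  have hpt : ∀ t : ℝ, L0 (cfc (fun x : ℝ => max (x - t) 0) S)
      + L1 (cfc (fun x : ℝ => t * max (x - t) 0) S) = 0 := by
    intro t
    rw [cfc_const_mul _ _ _ (by fun_prop)]
    have := hp t
    simp only [p, Algebra.algebraMap_eq_smul_one, mul_sub, sub_mul, mul_smul_comm, smul_mul_assoc,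
      mul_one, one_mul] at this
    simp only [L0, L1, sub_apply, ContinuousLinearMap.flip_apply,
      ContinuousLinearMap.mul_apply', mul_smul_comm, smul_mul_assoc]
    rw [← sub_eq_zero] at this
    rw [← this]
    simp only [mul_assoc]
    abel
  have hsum : L0 ((1 / 2 : ℝ) • S ^ 2 + R • S + (R ^ 2 / 2) • (1 : 𝒜))
      + L1 ((1 / 6 : ℝ) • S ^ 3 - (R ^ 2 / 2) • S - (R ^ 3 / 3) • (1 : 𝒜)) = 0 := by
    rw [hI0, hI1, ← L0.integral_comp_comm hi0, ← L1.integral_comp_comm hi1,
      ← integral_add (L0.integrable_comp hi0) (L1.integrable_comp hi1)]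
    simp [hpt]
  have hD3 : S * (S * (S * T - T * S) - (S * T - T * S) * S)
      - (S * (S * T - T * S) - (S * T - T * S) * S) * S = 0 := by
    simp only [L0, L1, sub_apply, ContinuousLinearMap.flip_apply,
      ContinuousLinearMap.mul_apply', mul_add, add_mul, mul_sub, sub_mul, mul_smul_comm,
      smul_mul_assoc, mul_one, one_mul, pow_succ, pow_zero, mul_assoc] at hsum
    have h6 := congrArg (fun z => (-6 : ℝ) • z) hsum
    simp only [smul_zero] at h6
    rw [← h6]
    simp only [mul_sub, sub_mul, mul_assoc]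
    module
  have hD2 := comm_eq_zero_of_comm_comm hS (C := S * T - T * S) (sub_eq_zero.mp hD3)
  have hD1 := comm_eq_zero_of_comm_comm hS (C := T) (sub_eq_zero.mp hD2)
  exact sub_eq_zero.mp hD1

end Pool.Agent.P.MP_65e938_an
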