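import Mathlib
import Pool.Agent.P.MP_65e938_an.Local

/-! A reductive operator quasi-similar to a normal operator is normal. -/

set_option autoImplicit false

open ContinuousLinearMap
open scoped InnerProductSpace ComplexStarModule

namespace Pool.Agent.P.MP_65e938_an

variable {H : Type*} [NormedAddCommGroup H] [InnerProductSpace ℂ H] [CompleteSpace H]

theorem proj_commute {A : H →L[ℂ] H} (M : Submodule ℂ H) [M.HasOrthogonalProjection]
    (h1 : ∀ x ∈ M, A x ∈ M) (h2 : ∀ x ∈ M, adjoint A x ∈ M) :
    M.starProjection * A = A * M.starProjection := by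
  ext v
  simp only [mul_apply_eq_comp]
  apply Submodule.eq_starProjection_of_mem_of_inner_eq_zero (h1 _ (M.starProjection_apply_mem v))
  intro w hw
  rw [← map_sub, ← adjoint_inner_right]
  exact M.starProjection_inner_eq_zero v _ (h2 w hw)

theorem key_zero {A N X Y : H →L[ℂ] H} (hX : Function.Injective X)
    (hXA : X * A = N * X) (hAY : A * Y = Y * N)
    (hred : ∀ M : Submodule ℂ H, IsClosed (M : Set H) → (∀ x ∈ M, A x ∈ M) →
      ∀ x ∈ M, adjoint A x ∈ M)
    {b c : H →L[ℂ] H} (hb : Commute b N) (hc : ∀ W : H →L[ℂ] H, Commute N W → Commute c W)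
    (hcb : c * b = 0) : star b * (star Y * Y) * c = 0 := by
  let M : Submodule ℂ H := (LinearMap.range (Y * b).toLinearMap).topologicalClosure
  have hMc : IsClosed (M : Set H) := Submodule.isClosed_topologicalClosure _
  have : CompleteSpace M := hMc.completeSpace_coe
  have hmem : ∀ u, Y (b u) ∈ M := fun u =>
    Submodule.le_topologicalClosure _ ⟨u, rfl⟩
  have hinv : ∀ x ∈ M, A x ∈ M := by
    have : M ≤ M.comap A.toLinearMap := by
      apply Submodule.topologicalClosure_minimal
      · rintro _ ⟨u, rfl⟩
        have e : A (Y (b u)) = Y (b (N u)) := by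
          have e1 : A (Y (b u)) = (A * Y) (b u) := rfl
          have e2 : b (N u) = (b * N) u := rfl
          rw [e1, e2, hAY, hb.eq]
          rfl
        change A (Y (b u)) ∈ M
        rw [e]
        exact hmem _
      · exact hMc.preimage A.continuous
    exact fun x hx => this hx
  have hP := proj_commute M hinv (hred M hMc hinv)
  set P := M.starProjection with hPdef
  have hW : Commute N (X * P * Y) := by
    change N * (X * P * Y) = X * P * Y * N
    calc N * (X * P * Y) = (N * X) * P * Y := by simp only [mul_assoc]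
      _ = X * (A * P) * Y := by rw [← hXA]; simp only [mul_assoc]
      _ = X * P * (A * Y) := by rw [← hP]; simp only [mul_assoc]
      _ = X * P * Y * N := by rw [hAY]; simp only [mul_assoc]
  have hXY : Commute N (X * Y) := by
    change N * (X * Y) = X * Y * N
    rw [← mul_assoc, ← hXA, mul_assoc, hAY, mul_assoc]
  have hker : ∀ x ∈ M, c (X x) = 0 := by
    have : M ≤ LinearMap.ker (c * X).toLinearMap := by
      apply Submodule.topologicalClosure_minimal
      · rintro _ ⟨u, rfl⟩
        have e : c * (X * Y) * b = 0 := by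
          rw [(hc _ hXY).eq, mul_assoc, hcb, mul_zero]
        exact congrArg (fun T : H →L[ℂ] H => T u) e
      · exact (c * X).isClosed_ker
    exact fun x hx => this hx
  have hPY : ∀ v, P (Y (c v)) = 0 := by
    intro v
    apply hX
    have e1 : X (P (Y (c v))) = (X * P * Y * c) v := rfl
    rw [e1, ← (hc _ hW).eq, map_zero]
    exact hker _ (M.starProjection_apply_mem _)
  ext v
  apply ext_inner_left ℂ
  intro u
  have e1 : (star b * (star Y * Y) * c) v = adjoint b (adjoint Y (Y (c v))) := rfl
  rw [e1, adjoint_inner_right, adjoint_inner_right]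
  have e2 := M.starProjection_inner_eq_zero (Y (c v)) _ (hmem u)
  rw [← hPdef, hPY, sub_zero] at e2
  rw [inner_eq_zero_symm.mp e2]
  simp

theorem normal_of_reductive {A N X Y : H →L[ℂ] H} (hN : IsStarNormal N)
    (hX : Function.Injective X) (hY : DenseRange Y)
    (hXA : X * A = N * X) (hAY : A * Y = Y * N)
    (hred : ∀ M : Submodule ℂ H, IsClosed (M : Set H) → (∀ x ∈ M, A x ∈ M) →
      ∀ x ∈ M, adjoint A x ∈ M) : IsStarNormal A := by
  have hloc : ∀ S : H →L[ℂ] H, IsSelfAdjoint S → (∀ W : H →L[ℂ] H, Commute N W → Commute S W) →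
      Commute S (star Y * Y) := by
    intro S hS hSW
    apply commute_of_local hS
    intro f g hf hg hfg
    have hfs : star (cfc f S) = cfc f S := (cfc_predicate f S : IsSelfAdjoint _).star_eq
    rw [← hfs]
    apply key_zero hX hXA hAY hred ((hSW N (Commute.refl N)).cfc_real f)
      (fun W hW => (hSW W hW).cfc_real g)
    rw [← cfc_mul _ _ _ hg.continuousOn hf.continuousOn]
    have : (fun x => g x * f x) = fun _ => (0 : ℝ) := by
      funext x; rw [mul_comm]; exact hfg x
    rw [this]
    simp
  have hre : Commute (ℜ N : H →L[ℂ] H) (star Y * Y) := by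
    apply hloc _ (ℜ N).2
    intro W hW
    rw [realPart_apply_coe]
    exact (hW.add_left (hN.commute_star_left hW)).smul_left _
  have him : Commute (ℑ N : H →L[ℂ] H) (star Y * Y) := by
    apply hloc _ (ℑ N).2
    intro W hW
    rw [imaginaryPart_apply_coe]
    exact ((hW.sub_left (hN.commute_star_left hW)).smul_left _).smul_left _
  have hT : Commute N (star Y * Y) := by
    rw [← realPart_add_I_smul_imaginaryPart N]
    exact hre.add_left (him.smul_left _)
  have hT' : Commute (star N) (star Y * Y) := hN.commute_star_left hT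
  have hcancel : ∀ B C : H →L[ℂ] H, B * Y = C * Y → B = C := by
    intro B C h
    apply ContinuousLinearMap.coeFn_injective
    apply hY.equalizer B.continuous C.continuous
    funext u
    exact congrArg (fun T : H →L[ℂ] H => T u) h
  have hAY' : star A * Y = Y * star N := by
    have e : star (star A * Y) * Y = star (Y * star N) * Y := by
      rw [star_mul, star_mul, star_star, star_star, mul_assoc, hAY, mul_assoc, hT.eq, mul_assoc]
    exact star_injective (hcancel _ _ e)
  refine ⟨hcancel _ _ ?_⟩
  rw [mul_assoc, hAY, ← mul_assoc, hAY', mul_assoc, mul_assoc, hAY', ← mul_assoc A, hAY, mul_assoc,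
    hN.star_comm_self.eq]

/-- The operators leaving a closed subspace invariant. -/
theorem isClosed_wot_invariant (M : Submodule ℂ H) (hM : IsClosed (M : Set H)) :
    IsClosed (ContinuousLinearMapWOT.ofCLM '' {T : H →L[ℂ] H | ∀ x ∈ M, T x ∈ M}) := by
  have : CompleteSpace M := hM.completeSpace_coe
  have : ContinuousLinearMapWOT.ofCLM '' {T : H →L[ℂ] H | ∀ x ∈ M, T x ∈ M}
      = ⋂ x ∈ M, ⋂ y ∈ Mᗮ, {T : H →WOT[ℂ] H | ⟪y, T x⟫_ℂ = 0} := by
    ext T
    simp only [Set.mem_image, Set.mem_ofPred_eq, Set.mem_iInter]
    constructor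
    · rintro ⟨T, hT, rfl⟩ x hx y hy
      exact Submodule.inner_left_of_mem_orthogonal (hT x hx) hy
    · intro h
      refine ⟨T.toCLM, fun x hx => ?_, rfl⟩
      rw [← M.orthogonal_orthogonal, Submodule.mem_orthogonal]
      exact fun y hy => h x hx y hy
  rw [this]
  refine isClosed_biInter fun x _ => isClosed_biInter fun y _ => ?_
  exact isClosed_eq (ContinuousLinearMapWOT.continuous_dual_apply x (innerSL ℂ y)) continuous_const

end Pool.Agent.P.MP_65e938_an
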